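import Pool.Agent.Helper67.NX2.Defs
import Pool.Agent.Helper30.NX.UsOfTop

/-!
# Project NX2, module A8: the lower functions from the top function, mixed exponents
-/

set_option autoImplicit false

open Finset
open scoped BigOperators ComplexConjugate

namespace Pool.Agent.Helper67.NX2

open Pool.Agent.Helper57.NX

noncomputable section

namespace US50

open Pool.Agent.Helper57.NX.US10

/-- monotonicity of `IG` in the slack -/
theorem ig_mono {m : ℕ} {S : Sys m} {c : Fin m → ℝ} {N : ℕ} {x x' : ℝ} {lam : ℕ}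
    (h : IG S c N x lam) (hD : 1 ≤ S.D) (hx : x ≤ x') : IG S c N x' lam where
  good := good_mono h.good hD hx
  Q3 := h.Q3.trans (Real.rpow_le_rpow_of_exponent_le hD (by linarith))
  lam1 := h.lam1
  rho := h.rho
  Pint := h.Pint
  prime := h.prime

/-- an average of length `st L` is an average of averages along progressions of difference `st` -/
theorem nrm_A_mul {N : ℕ} [NeZero N] (st L : ℕ) (hst : 1 ≤ st) (f : ZMod N → ℂ) :
    nrm (A (st * L) f) ≤ nrm (Aq st L f) := by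
  have hst0 : (st : ℚ≥0) ≠ 0 := by exact_mod_cast (by omega : st ≠ 0)
  have h1 : ∀ x, A (st * L) f x = 𝔼 r ∈ range st, Aq st L f (x + (r : ZMod N)) := by
    intro x
    have h2 : (∑ a ∈ range (st * L), f (x + (a : ZMod N))) =
        ∑ r ∈ range st, ∑ b ∈ range L, f (x + (r : ZMod N) + ((st * b : ℕ) : ZMod N)) := by
      rw [Finset.sum_comm]
      have h3 : ∀ n : ℕ, (∑ a ∈ range (st * n), f (x + (a : ZMod N))) =
          ∑ b ∈ range n, ∑ r ∈ range st, f (x + (r : ZMod N) + ((st * b : ℕ) : ZMod N)) := by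
        intro n
        induction n with
        | zero => simp
        | succ n ih =>
          rw [Nat.mul_succ, Finset.sum_range_add, ih, Finset.sum_range_succ]
          congr 1
          refine Finset.sum_congr rfl fun r _ => ?_
          congr 1
          push_cast
          ring
      exact h3 L
    rw [A, Finset.expect_eq_sum_div_card, h2, Finset.expect_eq_sum_div_card, card_range,
      card_range]
    have h3 : ∀ r ∈ range st, Aq st L f (x + (r : ZMod N)) =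
        (∑ b ∈ range L, f (x + (r : ZMod N) + ((st * b : ℕ) : ZMod N))) / L := by
      intro r _
      rw [Aq, Finset.expect_eq_sum_div_card, card_range]
    rw [Finset.sum_congr rfl h3, ← Finset.sum_div, div_div]
    push_cast
    rw [mul_comm (st : ℂ) (L : ℂ)]
  have hne : (range st).Nonempty := Finset.nonempty_range_iff.2 (by omega)
  calc nrm (A (st * L) f) ≤ 𝔼 x : ZMod N, 𝔼 r ∈ range st, ‖Aq st L f (x + (r : ZMod N))‖ := by
        refine Finset.expect_le_expect fun x _ => ?_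
        rw [h1]
        exact RCLike.norm_expect_le (K := ℂ)
    _ = 𝔼 r ∈ range st, 𝔼 x : ZMod N, ‖Aq st L f (x + (r : ZMod N))‖ := Finset.expect_comm _ _ _
    _ = 𝔼 r ∈ range st, nrm (Aq st L f) := by
        refine Finset.expect_congr rfl fun r _ => ?_
        rw [nrm]
        exact Fintype.expect_equiv (Equiv.addRight (r : ZMod N)) _ _ fun x => rfl
    _ = nrm (Aq st L f) := Finset.expect_const hne _

theorem low (m : ℕ) (c : Fin (m + 1) → ℝ) (hc0 : ∀ i, 0 < c i) (s ε : ℝ) (hε : 0 < ε)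
    (hU : ∀ ε : ℝ, 0 < ε → UPm m (fun i => c i.castSucc) ε)
    (hT : ∀ ε : ℝ, 0 < ε → TopPm m c s ε) :
    ∃ x0 : ℝ, 0 < x0 ∧ ∃ C : ℕ, ∃ σ : ℝ, 0 < σ ∧ ∃ D0 : ℝ,
  ∀ (S : Sys (m + 1)) (N : ℕ) [NeZero N] (lam : ℕ), D0 ≤ S.D → IG S c N x0 lam →
  ∀ δ : ℝ, S.D ^ (-σ) ≤ δ → δ ≤ 1 / 2 → (lam : ℝ) ≤ δ⁻¹ →
  ∀ X : ℝ, (S.Q : ℝ) ≤ X → S.Q * S.D ^ (s - σ) ≤ X →
  ∀ (f0 : ZMod N → ℂ) (f : Fin (m + 1) → ZMod N → ℂ),
  Adm δ⁻¹ S.Q f0 → (∀ i, Adm δ⁻¹ S.Q (f i)) → Adm δ⁻¹ X (f (Fin.last m)) →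
  δ ≤ ‖form S c 1 f0 f‖ →
  ∃ q : ℕ, 1 ≤ q ∧ (q : ℝ) ≤ δ⁻¹ ^ C ∧ ∀ i : Fin m, ∀ L : ℕ, 1 ≤ L →
    (L : ℝ) * (stp S.Q q (c i.castSucc) : ℝ) ≤ S.P i.castSucc * S.D ^ (-ε) →
    δ ^ C ≤ nrm (Aq (stp S.Q q (c i.castSucc)) L (f i.castSucc)) := by
  obtain ⟨x1, hx1, C1, σ1, hσ1, D1, h1⟩ := hU ε hε
  set p : ℝ := c (Fin.last m) with hp
  have hp0 : 0 < p := hc0 _
  obtain ⟨ε2, hε2, hε2x, hε2p, hε24⟩ : ∃ ε2 : ℝ, 0 < ε2 ∧ 4 * ε2 ≤ x1 ∧ 8 * ε2 ≤ p ∧
      4 * ε2 ≤ 1 := by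
    refine ⟨min (min (x1 / 4) (p / 8)) (1 / 4), by positivity, ?_, ?_, ?_⟩
    · have := (min_le_left (min (x1 / 4) (p / 8)) (1 / 4)).trans (min_le_left _ _)
      linarith
    · have := (min_le_left (min (x1 / 4) (p / 8)) (1 / 4)).trans (min_le_right _ _)
      linarith
    · have := min_le_right (min (x1 / 4) (p / 8)) (1 / 4)
      linarith
  obtain ⟨x2, hx2, C2, σ2, hσ2, D2, h2⟩ := hT ε2 hε2
  obtain ⟨K, hK0, hK⟩ : ∃ K : ℝ, 0 < K ∧ K = p * 2 ^ p := ⟨_, by positivity, rfl⟩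
  obtain ⟨x0, hx0, hx01, hx02, hx03⟩ : ∃ x0 : ℝ, 0 < x0 ∧ x0 ≤ x1 ∧ x0 ≤ x2 ∧ x0 ≤ ε2 :=
    ⟨min (min x1 x2) ε2, by positivity, (min_le_left _ _).trans (min_le_left _ _),
      (min_le_left _ _).trans (min_le_right _ _), min_le_right _ _⟩
  obtain ⟨σ, hσ, hσa, hσb, hσc, hσd⟩ : ∃ σ : ℝ, 0 < σ ∧ 4 * σ ≤ σ1 ∧ 3 * σ ≤ σ2 ∧
      2 * σ ≤ ε2 ∧ σ * (3 * C2) ≤ ε2 / 2 := by
    refine ⟨min (min (σ1 / 4) (σ2 / 3)) (min (ε2 / 2) (ε2 / (2 * (3 * C2 + 1)))), by positivity,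
      ?_, ?_, ?_, ?_⟩
    · have := (min_le_left (min (σ1 / 4) (σ2 / 3)) (min (ε2 / 2) (ε2 / (2 * (3 * C2 + 1))))).trans
        (min_le_left _ _)
      linarith
    · have := (min_le_left (min (σ1 / 4) (σ2 / 3)) (min (ε2 / 2) (ε2 / (2 * (3 * C2 + 1))))).trans
        (min_le_right _ _)
      linarith
    · have := (min_le_right (min (σ1 / 4) (σ2 / 3)) (min (ε2 / 2) (ε2 / (2 * (3 * C2 + 1))))).trans
        (min_le_left _ _)
      linarith
    · have h3 := (min_le_right (min (σ1 / 4) (σ2 / 3))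
        (min (ε2 / 2) (ε2 / (2 * (3 * C2 + 1))))).trans (min_le_right _ _)
      have h4 : (0 : ℝ) ≤ 3 * C2 := by positivity
      calc _ ≤ ε2 / (2 * (3 * C2 + 1)) * (3 * C2) := mul_le_mul_of_nonneg_right h3 h4
        _ ≤ ε2 / (2 * (3 * C2 + 1)) * (3 * C2 + 1) :=
            mul_le_mul_of_nonneg_left (by linarith) (by positivity)
        _ = ε2 / 2 := by field_simp
  refine ⟨x0, hx0, 4 * C1, σ, hσ, max (max D1 D2) ((64 * K + 32) ^ (2 / ε2)), ?_⟩
  intro S N _ lam hD hIG δ hδσ hδ2 hlam X hQX hX f0 f hf0 hf hfX hform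
  have hgood := hIG.good
  -- sizes
  have hDκ : 64 * K + 32 ≤ S.D ^ (ε2 / 2) := by
    have h3 : (64 * K + 32) ^ (2 / ε2) ≤ S.D := (le_max_right _ _).trans hD
    have h4 := Real.rpow_le_rpow (by positivity) h3 (by positivity : 0 ≤ ε2 / 2)
    rw [← Real.rpow_mul (by positivity)] at h4
    have h5 : 2 / ε2 * (ε2 / 2) = 1 := by field_simp
    rwa [h5, Real.rpow_one] at h4
  have hD1 : 1 ≤ S.D := by
    refine le_trans ?_ ((le_max_right _ _).trans hD)
    exact Real.one_le_rpow (by linarith) (by positivity)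
  have hD0 : 0 < S.D := by linarith
  have hDD1 : D1 ≤ S.D := ((le_max_left _ _).trans (le_max_left _ _)).trans hD
  have hDD2 : D2 ≤ S.D := ((le_max_right _ _).trans (le_max_left _ _)).trans hD
  have hδ0 : 0 < δ := (Real.rpow_pos_of_pos hD0 _).trans_le hδσ
  have hinv : 0 < δ⁻¹ := inv_pos.2 hδ0
  have hinv2 : 2 ≤ δ⁻¹ := by
    rw [le_inv_comm₀ two_pos hδ0]
    linarith
  have hQ0 : (0 : ℝ) < S.Q := (Real.rpow_pos_of_pos hD0 _).trans_le hgood.Q1
  have hX0 : 0 < X := hQ0.trans_le hQX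
  -- the top sequence
  have hPQ : (S.Q : ℝ) ≤ S.P (Fin.last m) := by
    refine le_trans ?_ (hgood.P1 (Fin.last m))
    exact le_mul_of_one_le_right hQ0.le (Real.one_le_rpow hD1 (by rw [← hp]; linarith))
  have hPD : S.D ^ (2 : ℝ) ≤ S.P (Fin.last m) := hgood.Q1.trans hPQ
  have hP0 : 0 < S.P (Fin.last m) := hQ0.trans_le hPQ
  have hy2 : 1 ≤ S.P (Fin.last m) * S.D ^ (-(2 * ε2)) := by
    calc (1 : ℝ) ≤ S.D ^ (2 - 2 * ε2) := Real.one_le_rpow hD1 (by linarith)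
      _ = S.D ^ (2 : ℝ) * S.D ^ (-(2 * ε2)) := by
          rw [← Real.rpow_add hD0]
          congr 1
      _ ≤ _ := mul_le_mul_of_nonneg_right hPD (Real.rpow_nonneg hD0.le _)
  have hy1 : 1 ≤ S.P (Fin.last m) * S.D ^ (-ε2) := by
    refine hy2.trans (mul_le_mul_of_nonneg_left ?_ hP0.le)
    exact Real.rpow_le_rpow_of_exponent_le hD1 (by linarith)
  obtain ⟨L', hL'1, hL'a, hL'b⟩ : ∃ L' : ℕ, 1 ≤ L' ∧
      (L' : ℝ) ≤ S.P (Fin.last m) * S.D ^ (-(2 * ε2)) ∧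
      S.P (Fin.last m) * S.D ^ (-(2 * ε2)) / 2 ≤ L' :=
    ⟨_, (Nat.one_le_floor_iff _).2 hy2, Nat.floor_le (by linarith), floor_half hy2⟩
  obtain ⟨L2, hL21, hL2a, hL2b⟩ : ∃ L2 : ℕ, 1 ≤ L2 ∧
      (L2 : ℝ) ≤ S.P (Fin.last m) * S.D ^ (-ε2) ∧
      S.P (Fin.last m) * S.D ^ (-ε2) / 2 ≤ L2 :=
    ⟨_, (Nat.one_le_floor_iff _).2 hy1, Nat.floor_le (by linarith), floor_half hy1⟩
  have hL'0 : (0 : ℝ) < L' := by exact_mod_cast hL'1
  have hL20 : (0 : ℝ) < L2 := by exact_mod_cast hL21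
  set fm : ZMod N → ℂ := f (Fin.last m) with hfm
  set g : ZMod N → ℂ := A L' fm with hg
  set u : ZMod N → ℂ := fun x => (1 / 2 : ℂ) * (fm x - g x) with hu
  have hgb : ∀ x, ‖g x‖ ≤ 1 := fun x => norm_A_le hfX.bdd L' x
  have hub : ∀ x, ‖u x‖ ≤ 1 := by
    intro x
    rw [hu]
    dsimp only
    rw [norm_mul, norm_div, norm_one, Complex.norm_ofNat]
    have h3 := norm_sub_le (fm x) (g x)
    have h4 := hfX.bdd x
    have h5 := hgb x
    linarith
  have hutv : TV δ⁻¹ X u := by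
    have h3 := (hfX.tv.sub (hfX.tv.avg L')).smul (1 / 2 : ℂ)
    have h4 : ‖(1 / 2 : ℂ)‖ * (δ⁻¹ + δ⁻¹) = δ⁻¹ := by
      rw [norm_div, norm_one, Complex.norm_ofNat]
      ring
    rw [h4] at h3
    exact h3
  -- decomposition
  have hdec : form S c 1 f0 f = 2 * form S c 1 f0 (Function.update f (Fin.last m) u)
      + form S c 1 f0 (Function.update f (Fin.last m) g) := by
    rw [← form_update_smul, ← form_update_add]
    congr 1
    refine (Function.update_eq_self (Fin.last m) f).symm.trans ?_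
    congr 1
    funext x
    rw [hu]
    dsimp only
    rw [← hfm]
    ring
  -- the first term is small
  have hsmall : ‖form S c 1 f0 (Function.update f (Fin.last m) u)‖ < δ ^ 3 := by
    by_contra hcon
    push Not at hcon
    have hδ3 : S.D ^ (-σ2) ≤ δ ^ 3 := by
      calc S.D ^ (-σ2) ≤ S.D ^ (-σ * (3 : ℕ)) :=
            Real.rpow_le_rpow_of_exponent_le hD1 (by push_cast; linarith)
        _ = (S.D ^ (-σ)) ^ 3 := Real.rpow_mul_natCast hD0.le _ _
        _ ≤ δ ^ 3 := pow_le_pow_left₀ (Real.rpow_nonneg hD0.le _) hδσ 3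
    have hδ31 : δ ^ 3 ≤ 1 / 2 := by
      calc δ ^ 3 ≤ δ ^ 1 := pow_le_pow_of_le_one hδ0.le (by linarith) (by norm_num)
        _ ≤ 1 / 2 := by rw [pow_one]; exact hδ2
    have hinv3 : δ⁻¹ ≤ (δ ^ 3)⁻¹ := by
      refine inv_anti₀ (pow_pos hδ0 3) ?_
      calc δ ^ 3 ≤ δ ^ 1 := pow_le_pow_of_le_one hδ0.le (by linarith) (by norm_num)
        _ = δ := pow_one δ
    have hXσ : S.Q * S.D ^ (s - σ2) ≤ X := by
      refine le_trans ?_ hX
      exact mul_le_mul_of_nonneg_left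
        (Real.rpow_le_rpow_of_exponent_le hD1 (by linarith)) hQ0.le
    have hAu : Adm (δ ^ 3)⁻¹ X u := (Adm.mk hub hutv).mono hinv3 hX0 le_rfl
    have h3 := h2 S N lam hDD2 (ig_mono hIG hD1 hx02) (δ ^ 3) hδ3 hδ31 (hlam.trans hinv3) X hQX hXσ f0
      (Function.update f (Fin.last m) u) (hf0.mono hinv3 hQ0 le_rfl) (fun j => by
        by_cases hj : j = Fin.last m
        · subst hj
          rw [Function.update_self]
          exact hAu.mono le_rfl hQ0 hQX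
        · rw [Function.update_of_ne hj]
          exact (hf j).mono hinv3 hQ0 le_rfl) (by rw [Function.update_self]; exact hAu) hcon
      L2 hL21 hL2a
    rw [Function.update_self] at h3
    have h4 : nrm (A L2 u) ≤ L' / L2 := by
      refine Finset.expect_le Finset.univ_nonempty fun x _ => ?_
      rw [hu, A_const_mul, norm_mul, norm_div, norm_one, Complex.norm_ofNat]
      have h5 := A_small hfX.bdd L2 L' hL21 hL'1 x
      calc _ ≤ 1 / 2 * (2 * (L' : ℝ) / L2) := mul_le_mul_of_nonneg_left h5 (by norm_num)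
        _ = L' / L2 := by ring
    have h5 : (L' / L2 : ℝ) ≤ 2 * S.D ^ (-ε2) := by
      rw [div_le_iff₀ hL20]
      calc (L' : ℝ) ≤ S.P (Fin.last m) * S.D ^ (-(2 * ε2)) := hL'a
        _ = 2 * S.D ^ (-ε2) * (S.P (Fin.last m) * S.D ^ (-ε2) / 2) := by
            have : S.D ^ (-(2 * ε2)) = S.D ^ (-ε2) * S.D ^ (-ε2) := by
              rw [← Real.rpow_add hD0]
              congr 1
              ring
            rw [this]
            ring
        _ ≤ _ := mul_le_mul_of_nonneg_left hL2b (by positivity)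
    have h6 : S.D ^ (-(ε2 / 2)) ≤ (δ ^ 3) ^ C2 := by
      rw [← pow_mul]
      calc S.D ^ (-(ε2 / 2)) ≤ S.D ^ (-σ * ((3 * C2 : ℕ) : ℝ)) :=
            Real.rpow_le_rpow_of_exponent_le hD1 (by push_cast; linarith)
        _ = (S.D ^ (-σ)) ^ (3 * C2) := Real.rpow_mul_natCast hD0.le _ _
        _ ≤ δ ^ (3 * C2) := pow_le_pow_left₀ (Real.rpow_nonneg hD0.le _) hδσ _
    have h7 : S.D ^ (-(ε2 / 2)) ≤ 2 * S.D ^ (-ε2) := h6.trans (h3.trans (h4.trans h5))
    have h8 : S.D ^ (ε2 / 2) ≤ 2 := by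
      have h9 := mul_le_mul_of_nonneg_right h7 (Real.rpow_nonneg hD0.le ε2)
      rw [mul_assoc, ← Real.rpow_add hD0, ← Real.rpow_add hD0] at h9
      have h10 : -(ε2 / 2) + ε2 = ε2 / 2 := by ring
      have h11 : -ε2 + ε2 = 0 := by ring
      rw [h10, h11, Real.rpow_zero, mul_one] at h9
      exact h9
    linarith
  have hgform : δ / 2 ≤ ‖form S c 1 f0 (Function.update f (Fin.last m) g)‖ := by
    have h3 : ‖form S c 1 f0 f‖ ≤ 2 * ‖form S c 1 f0 (Function.update f (Fin.last m) u)‖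
        + ‖form S c 1 f0 (Function.update f (Fin.last m) g)‖ := by
      rw [hdec]
      refine (norm_add_le _ _).trans ?_
      rw [norm_mul, Complex.norm_ofNat]
    have h4 : δ ^ 3 ≤ δ / 4 := by
      have h5 : δ ^ 2 ≤ 1 / 4 := by nlinarith
      calc δ ^ 3 = δ * δ ^ 2 := by ring
        _ ≤ δ * (1 / 4) := mul_le_mul_of_nonneg_left h5 hδ0.le
        _ = δ / 4 := by ring
    linarith
  -- the short intervals
  have hT1 : (1 : ℝ) ≤ S.D ^ (1 - 3 * ε2) := Real.one_le_rpow hD1 (by linarith)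
  obtain ⟨T', hT'0, hT'a, hT'b⟩ : ∃ T' : ℕ, 0 < T' ∧ S.D ^ (1 - 3 * ε2) ≤ T' ∧
      (T' : ℝ) ≤ 2 * S.D ^ (1 - 3 * ε2) := by
    refine ⟨⌈S.D ^ (1 - 3 * ε2)⌉₊, Nat.ceil_pos.2 (by linarith), Nat.le_ceil _, ?_⟩
    have := Nat.ceil_lt_add_one (show 0 ≤ S.D ^ (1 - 3 * ε2) by linarith)
    linarith
  have hTT : (T' : ℝ) < δ / 4 * S.T := by
    have h3 : S.D ^ (1 - ε2) ≤ S.T :=
      (Real.rpow_le_rpow_of_exponent_le hD1 (by linarith)).trans hgood.T1
    have h4 : S.D ^ (-(ε2 / 2)) ≤ δ :=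
      (Real.rpow_le_rpow_of_exponent_le hD1 (by linarith)).trans hδσ
    have h5 : S.D ^ (1 - 3 * ε2) * (S.D ^ (ε2 / 2) * S.D ^ (ε2 / 2) * S.D ^ (ε2 / 2))
        = S.D ^ (-(ε2 / 2)) * S.D ^ (1 - ε2) := by
      rw [← Real.rpow_add hD0, ← Real.rpow_add hD0, ← Real.rpow_add hD0, ← Real.rpow_add hD0]
      congr 1
      ring
    have h6 : (32 : ℝ) ≤ S.D ^ (ε2 / 2) := by linarith
    have h7 : (32 : ℝ) ≤ S.D ^ (ε2 / 2) * S.D ^ (ε2 / 2) * S.D ^ (ε2 / 2) := by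
      have h8 : (1 : ℝ) ≤ S.D ^ (ε2 / 2) * S.D ^ (ε2 / 2) := by nlinarith
      nlinarith
    have h8 : 32 * S.D ^ (1 - 3 * ε2) ≤ δ * S.T := by
      calc 32 * S.D ^ (1 - 3 * ε2)
          ≤ S.D ^ (1 - 3 * ε2) * (S.D ^ (ε2 / 2) * S.D ^ (ε2 / 2) * S.D ^ (ε2 / 2)) := by
            rw [mul_comm]
            exact mul_le_mul_of_nonneg_left h7 (by linarith)
        _ = S.D ^ (-(ε2 / 2)) * S.D ^ (1 - ε2) := h5
        _ ≤ δ * S.T := mul_le_mul h4 h3 (Real.rpow_nonneg hD0.le _) hδ0.le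
    linarith
  -- the averaged top function is almost constant
  have hη : ∀ k k' : ℕ, S.u ≤ k → k < S.u + S.T → S.u ≤ k' → k' < S.u + S.T →
      |(k : ℝ) - k'| ≤ T' → ∀ x,
      ‖Function.update f (Fin.last m) g (Fin.last m) (x + (S.a c (Fin.last m) k : ZMod N))
        - Function.update f (Fin.last m) g (Fin.last m)
          (x + (S.a c (Fin.last m) k' : ZMod N))‖ ≤ δ / 8 := by
    intro k k' hk1 hk2 hk1' hk2' hkk x
    rw [Function.update_self]
    have e1 : x + (S.a c (Fin.last m) k : ZMod N) = x + (S.a c (Fin.last m) k' : ZMod N)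
        + ((S.a c (Fin.last m) k - S.a c (Fin.last m) k' : ℤ) : ZMod N) := by
      push_cast
      ring
    rw [e1]
    refine (A_lipschitz hfX.bdd L' hL'1 _ _).trans ?_
    have h3 : |((S.a c (Fin.last m) k - S.a c (Fin.last m) k' : ℤ) : ℝ)|
        ≤ S.P (Fin.last m) * (K * (T' / S.D)) + 1 := by
      refine (floor_diff _ _).trans ?_
      rw [← mul_sub, abs_mul, abs_of_pos hP0]
      have h4 := rpow_lip p hp0 (S.t k') (S.t k) (t_mem hgood hD0 k' hk1' hk2')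
        (t_mem hgood hD0 k hk1 hk2)
      have h5 : |S.t k - S.t k'| ≤ T' / S.D := by
        rw [Sys.t, Sys.t, ← sub_div, abs_div, abs_of_pos hD0, add_sub_add_right_eq_sub]
        exact div_le_div_of_nonneg_right hkk hD0.le
      have h6 : |S.t k ^ p - S.t k' ^ p| ≤ K * (T' / S.D) := by
        rw [hK]
        exact h4.trans (mul_le_mul_of_nonneg_left h5 (by positivity))
      have h7 := mul_le_mul_of_nonneg_left h6 hP0.le
      linarith
    have h4 : 2 * |((S.a c (Fin.last m) k - S.a c (Fin.last m) k' : ℤ) : ℝ)| / L'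
        ≤ 2 * (S.P (Fin.last m) * (K * (T' / S.D)) + 1)
          / (S.P (Fin.last m) * S.D ^ (-(2 * ε2)) / 2) := by
      refine div_le_div₀ (by positivity) (by linarith) (by positivity) hL'b
    refine h4.trans ?_
    have h5 : (T' / S.D : ℝ) ≤ 2 * S.D ^ (-(3 * ε2)) := by
      rw [div_le_iff₀ hD0]
      refine hT'b.trans (le_of_eq ?_)
      rw [mul_assoc]
      nth_rewrite 3 [← Real.rpow_one S.D]
      rw [← Real.rpow_add hD0]
      congr 2
      ring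
    have h6 : (1 : ℝ) ≤ S.P (Fin.last m) * S.D ^ (-(3 * ε2)) := by
      calc (1 : ℝ) ≤ S.D ^ (2 - 3 * ε2) := Real.one_le_rpow hD1 (by linarith)
        _ = S.D ^ (2 : ℝ) * S.D ^ (-(3 * ε2)) := by
            rw [← Real.rpow_add hD0]
            congr 1
        _ ≤ _ := mul_le_mul_of_nonneg_right hPD (Real.rpow_nonneg hD0.le _)
    have h7 : S.P (Fin.last m) * (K * (T' / S.D)) + 1
        ≤ S.P (Fin.last m) * S.D ^ (-(3 * ε2)) * (2 * K + 1) := by
      have h8 := mul_le_mul_of_nonneg_left h5 (by positivity : 0 ≤ S.P (Fin.last m) * K)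
      calc S.P (Fin.last m) * (K * (T' / S.D)) + 1
          = S.P (Fin.last m) * K * (T' / S.D) + 1 := by ring
        _ ≤ S.P (Fin.last m) * K * (2 * S.D ^ (-(3 * ε2)))
            + S.P (Fin.last m) * S.D ^ (-(3 * ε2)) := add_le_add h8 h6
        _ = _ := by ring
    rw [div_le_iff₀ (by positivity)]
    have h9 : S.D ^ (-(ε2 / 2)) ≤ δ :=
      (Real.rpow_le_rpow_of_exponent_le hD1 (by linarith)).trans hδσ
    have h10 : S.D ^ (-(3 * ε2)) * S.D ^ (ε2 / 2) = S.D ^ (-(ε2 / 2)) * S.D ^ (-(2 * ε2)) := by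
      rw [← Real.rpow_add hD0, ← Real.rpow_add hD0]
      congr 1
      ring
    calc 2 * (S.P (Fin.last m) * (K * (T' / S.D)) + 1)
        ≤ 2 * (S.P (Fin.last m) * S.D ^ (-(3 * ε2)) * (2 * K + 1)) := by linarith
      _ = S.P (Fin.last m) * (S.D ^ (-(3 * ε2)) * (64 * K + 32)) / 16 := by ring
      _ ≤ S.P (Fin.last m) * (S.D ^ (-(3 * ε2)) * S.D ^ (ε2 / 2)) / 16 := by
          gcongr
      _ = S.P (Fin.last m) * (S.D ^ (-(ε2 / 2)) * S.D ^ (-(2 * ε2))) / 16 := by rw [h10]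
      _ ≤ S.P (Fin.last m) * (δ * S.D ^ (-(2 * ε2))) / 16 := by
          gcongr
      _ = δ / 8 * (S.P (Fin.last m) * S.D ^ (-(2 * ε2)) / 2) := by ring
  have hupdb : ∀ j x, ‖Function.update f (Fin.last m) g j x‖ ≤ 1 := by
    intro j x
    by_cases hj : j = Fin.last m
    · subst hj
      rw [Function.update_self]
      exact hgb x
    · rw [Function.update_of_ne hj]
      exact (hf j).bdd x
  obtain ⟨u', hu'1, hu'2, hu'3⟩ := reduce S c f0 hf0.bdd (Function.update f (Fin.last m) g) hupdb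
    T' hT'0 δ (δ / 8) hδ0 hTT hgform hη
  rw [Function.update_self] at hu'3
  have e2 : (fun i : Fin m => Function.update f (Fin.last m) g i.castSucc)
      = fun i : Fin m => f i.castSucc := by
    funext j
    rw [Function.update_of_ne (Fin.castSucc_lt_last j).ne]
  rw [e2] at hu'3
  -- apply the hypothesis for the lower system
  have hδ4 : S.D ^ (-σ1) ≤ δ ^ 4 := by
    calc S.D ^ (-σ1) ≤ S.D ^ (-σ * (4 : ℕ)) :=
          Real.rpow_le_rpow_of_exponent_le hD1 (by push_cast; linarith)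
      _ = (S.D ^ (-σ)) ^ 4 := Real.rpow_mul_natCast hD0.le _ _
      _ ≤ δ ^ 4 := pow_le_pow_left₀ (Real.rpow_nonneg hD0.le _) hδσ 4
  have hδ3 : δ ^ 3 ≤ 1 / 8 := by
    calc δ ^ 3 ≤ (1 / 2) ^ 3 := pow_le_pow_left₀ hδ0.le hδ2 3
      _ = 1 / 8 := by norm_num
  have hδ48 : δ ^ 4 ≤ δ / 8 := by
    calc δ ^ 4 = δ * δ ^ 3 := by ring
      _ ≤ δ * (1 / 8) := mul_le_mul_of_nonneg_left hδ3 hδ0.le
      _ = δ / 8 := by ring
  have hinv4 : δ⁻¹ + δ⁻¹ ≤ (δ ^ 4)⁻¹ := by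
    rw [← inv_pow]
    have h3 : δ⁻¹ ^ 4 = δ⁻¹ * δ⁻¹ ^ 3 := by ring
    have h4 : 2 ≤ δ⁻¹ ^ 3 := by
      calc (2 : ℝ) ≤ 2 ^ 3 := by norm_num
        _ ≤ δ⁻¹ ^ 3 := pow_le_pow_left₀ (by norm_num) hinv2 3
    rw [h3]
    nlinarith
  have hgood' : IG (S.init.sub u' T') (fun i => c i.castSucc) N x1 lam := by
    have h4 := ig_mono hIG hD1 hx01
    have h3 := h4.good
    refine ⟨?_, h4.Q3, h4.lam1, h4.rho, fun i d hd => h4.Pint i.castSucc d hd, h4.prime⟩
    refine ⟨h3.ρ0, h3.ρ1, h3.Q1, h3.Q2, fun i => h3.P1 i.castSucc, fun i => h3.P2 i.castSucc,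
      fun i => h3.N1 i.castSucc, h3.N2, ?_, ?_, ?_⟩
    · change S.D ≤ (u' : ℝ)
      exact h3.u1.trans (by exact_mod_cast hu'1)
    · change (u' : ℝ) + T' ≤ 2 * S.D
      refine le_trans ?_ h3.u2
      exact_mod_cast hu'2
    · change S.D ^ (1 - x1) ≤ (T' : ℝ)
      exact (Real.rpow_le_rpow_of_exponent_le hD1 (by linarith)).trans hT'a
  have hgA : Adm δ⁻¹ S.Q g := (hf (Fin.last m)).avg L'
  have hfinal := h1 (S.init.sub u' T') N lam hDD1 hgood' (δ ^ 4) hδ4 (by linarith)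
    (by linarith)
    (fun x => f0 x * g (x + (S.a c (Fin.last m) u' : ZMod N))) (fun i => f i.castSucc)
    ((hf0.mul (hgA.shift _)).mono hinv4 hQ0 le_rfl)
    (fun j => (hf j.castSucc).mono (by linarith) hQ0 le_rfl) (by linarith)
  obtain ⟨q, hq1, hq2, hq3⟩ := hfinal
  refine ⟨q, hq1, ?_, fun i L hL1 hL => ?_⟩
  · rw [pow_mul, inv_pow]
    exact hq2
  · rw [pow_mul]
    exact hq3 i L hL1 hL

end US50

/-- the statement for the top function gives it for all functions -/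
theorem us_of_top' (m : ℕ) (c : Fin (m + 1) → ℝ) (hc : Ex c) (s : ℝ) (hs0 : 0 ≤ s)
    (hU : ∀ ε : ℝ, 0 < ε → UPm m (fun i => c i.castSucc) ε)
    (hT : ∀ ε : ℝ, 0 < ε → TopPm m c s ε) : ∀ ε : ℝ, 0 < ε → UsJ m c s ε univ := by
  intro ε hε
  obtain ⟨x1, hx1, C1, σ1, hσ1, D1, h1⟩ :=
    US50.low m c (fun i => lt_of_lt_of_le two_pos (hc.two i)) s ε hε hU hT
  obtain ⟨x2, hx2, C2, σ2, hσ2, D2, h2⟩ := hT ε hε
  refine ⟨min x1 x2, lt_min hx1 hx2, max C1 C2, min σ1 σ2, lt_min hσ1 hσ2,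
    max (max D1 D2) 1, ?_⟩
  intro S N _ lam hD hgood δ hδσ hδ2 hlam X hQX hX f0 f hf0 hf hfX hform
  have hD1 : 1 ≤ S.D := (le_max_right _ _).trans hD
  have hD0 : 0 < S.D := by linarith
  have hδ0 : 0 < δ := (Real.rpow_pos_of_pos hD0 _).trans_le hδσ
  have hmono : ∀ σ' : ℝ, min σ1 σ2 ≤ σ' → S.D ^ (-σ') ≤ δ ∧ S.Q * S.D ^ (s - σ') ≤ X := by
    intro σ' h
    constructor
    · exact (Real.rpow_le_rpow_of_exponent_le hD1 (by linarith)).trans hδσ
    · exact (mul_le_mul_of_nonneg_left (Real.rpow_le_rpow_of_exponent_le hD1 (by linarith))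
        (Nat.cast_nonneg _)).trans hX
  have hδ1 : δ ≤ 1 := by linarith
  have hinv1 : 1 ≤ δ⁻¹ := (one_le_inv₀ hδ0).2 hδ1
  obtain ⟨q, hq1, hq2, hq3⟩ := h1 S N lam (((le_max_left _ _).trans (le_max_left _ _)).trans hD)
    (US50.ig_mono hgood hD1 (min_le_left _ _)) δ (hmono σ1 (min_le_left _ _)).1 hδ2 hlam X hQX
    (hmono σ1 (min_le_left _ _)).2 f0 f hf0 hf hfX hform
  refine ⟨q, hq1, hq2.trans (pow_le_pow_right₀ hinv1 (le_max_left _ _)), ?_⟩
  intro i _ L hL1 hL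
  have hst : 1 ≤ stp S.Q q (c i) := by
    unfold stp
    split_ifs
    · have hQ0 : 0 < S.Q := by
        have h3 : (0 : ℝ) < S.Q := (Real.rpow_pos_of_pos hD0 _).trans_le hgood.good.Q1
        exact_mod_cast h3
      exact Nat.mul_pos hQ0 (by omega)
    · exact le_rfl
  rcases Fin.eq_castSucc_or_eq_last i with ⟨j, rfl⟩ | rfl
  · have h3 := hq3 j L hL1 hL
    exact (pow_le_pow_of_le_one hδ0.le hδ1 (le_max_left _ _)).trans h3
  · have h3 := h2 S N lam (((le_max_right _ _).trans (le_max_left _ _)).trans hD)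
      (US50.ig_mono hgood hD1 (min_le_right _ _)) δ (hmono σ2 (min_le_right _ _)).1 hδ2 hlam X hQX
      (hmono σ2 (min_le_right _ _)).2 f0 f hf0 hf hfX hform
      (stp S.Q q (c (Fin.last m)) * L) (Nat.mul_pos hst hL1) (by
        push_cast
        rw [mul_comm]
        exact hL)
    exact ((pow_le_pow_of_le_one hδ0.le hδ1 (le_max_right _ _)).trans h3).trans
      (US50.nrm_A_mul _ L hst _)

end

end Pool.Agent.Helper67.NX2
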